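import Mathlib
import Pool.Agent.Y649.DG.Main
import Pool.Agent.Y649.DG.Incl
import Pool.Agent.Y672.DG.ThreeSum

/-!
# 3SUM: formulas with determinant gates

The input consists of `2 n` distinct integers of absolute value at most `(2 n) ^ 3`; the question is
whether three of them have the sum zero. The items of the input are the first `n` numbers and the
list of the other `n` numbers; the words have the length `c log₂ (2 n)`.

A formula (`Fml`) is built from real constants, arbitrary real functions of one item, and arbitrary real
functions of `w` words, where each word is a function of one item with `q` values, by the gates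

* `pos`: is the value positive? (`1` or `0`),
* `sym`: any fan-in, any real function of the number of positive inputs,
* `det`: the determinant of a real matrix of any order whose entries are formulas (sums and products
  are determinants of order two),
* `reg`: is the matrix over an arbitrary field `K`, of any order, whose entry `(a, b)` is `c' a b` or
  `c a b`, according to whether the formula `(a, b)` is positive or not, regular? (`1` or `0`).

The size is the number of the leaves which are not constants, plus the number of wires which lead to
gates `sym`. So constants and the orders of the matrices are free. The formula accepts if its value is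
positive. Such formulas contain (without increase in size, `Pool.Agent.Y649.DG.exists_of_net`) the
nondeterministic networks whose edges are guarded by real formulas, and these may be nested: the
guards of a network, or the entries of a span program, may be the results of other networks.

We show that random formulas of size at most `s` with error probability at most `1 / 3` need
`n ^ 3 ≤ 8 * 10 ^ 7 * c w ^ 3 s ^ 2`, that is, size of order `n ^ (3 / 2)`.

Proof. By the coding of helper697 each of the first `n` numbers can ask for about `n log₂ n / 7` bits of the
list. If `r` leaves see an item, then the other parts of the formula enter a determinant with `r` live entries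
only through `O (r ^ 2)` numbers (Schur complement), so `2 ^ O (r ^ 2 log n)` functions of the item
arise when the other items are fixed: Warren's theorem for the sign tests, and the theorem of Rónyai,
Babai and Ganapathy on zero patterns for the fields `K` (`Pool.Agent.Y73.DG.core`).
-/

set_option autoImplicit false

namespace Pool.Agent.Results.MP_8f87b2_lc.DeterminantGates

open Pool.Agent.TH697.Form (IsProb)
open Pool.Agent.TH697.Row (ApproximatesOn)
open Pool.Agent.TH697.Form.ThreeSum (Item Valid)
open Pool.Agent.TH457.Ary.ZeroSum (zeroSum)
open Pool.Agent.Y638.RF (Net)
open Pool.Agent.Y649.DG (Fml)

theorem result : 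
    (∀ n c w : ℕ, 1000 ≤ n → 1 ≤ c → 1 ≤ w →
      ∀ (Ω : Type) [Fintype Ω] (μ : Ω → ℝ), IsProb μ →
      ∀ (s : ℕ) (F : Ω → Fml (Option (Fin n)) (Item n n) w ((2 * n) ^ c)),
        (∀ ω, (F ω).size ≤ s) →
        ApproximatesOn μ (fun ω => (F ω).accepts) (Valid n n) (zeroSum n) →
        (n : ℝ) ^ 3 ≤ 80000000 * c * w ^ 3 * s ^ 2) ∧
    (∀ (ι : Type) (D : ι → Type) (w q : ℕ) (N : Net ι D w q),
      ∃ F : Fml ι D w q, F.size ≤ N.size ∧ ∀ x, F.accepts x = N.eval x) :=
  ⟨Pool.Agent.Y672.DG.ThreeSum.threesum Pool.Agent.Y649.DG.bound,
    fun _ _ _ _ N => Pool.Agent.Y649.DG.exists_of_net N⟩

end Pool.Agent.Results.MP_8f87b2_lc.DeterminantGates
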