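import Pool.Agent.Y208.TS.NonDet

/-!
# Integer 3SUM: nondeterministic machines with slow heads which verify the absence of solutions

Integer 3SUM has short proofs of negative answers: Carmosino, Gao, Impagliazzo, Mihajlin, Paturi and Schneider
gave a nondeterministic algorithm of time `N ^ (3 / 2 + o(1))` which accepts exactly the lists
without three numbers of sum zero.  Here is a lower bound for such nondeterministic algorithms in a
restricted model.  The list of `N` distinct integers of absolute value at most `N ^ 4` is given as a
word of `n = N (w + 1)` bits.  Nonuniform nondeterministic programs with `k` two-way heads, which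
move by at most one position in a step, with at most `2 ^ S` configurations, which accept the no
instances within `T` steps and never accept a yes instance, satisfy
`(k T + n) ^ 2 * k * (S + 1) * (w + 1) ≥ n ^ 3 / 26000`.  So with space `N ^ o(1)` and a bounded
number of heads they need time `N ^ (3 / 2 - o(1))`, and with space `N ^ (1 - 2 c - o(1))` time
`N ^ (1 + c)`.
-/

set_option autoImplicit false

namespace Pool.Agent.Results.MP_8f87b2_lc.NondeterministicSlowHeads

open Pool.Agent.TH457.HT

/-- Let `P` be a nondeterministic program with `k ≥ 1` two-way heads for words of `N (w + 1)` bits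
and with at most `2 ^ S` configurations.  If each list of `N` distinct integers of absolute value
at most `N ^ 4` without three numbers of sum zero is accepted by some computation of at most `T`
steps, and if no list with three numbers of sum zero is accepted by any computation, then
`n ^ 3 ≤ 26000 * k * (S + 1) * (w + 1) * (k * T + n) ^ 2` for `n = N (w + 1)`. -/
theorem result (N w k T S : ℕ) (P : HeadProg Bool (N * (w + 1)) k) (hk : 1 ≤ k)
    (hS : Fintype.card P.Q * (N * (w + 1)) ^ k ≤ 2 ^ S)
    (hacc : ∀ x : Fin N → ℤ, Function.Injective x → (∀ i, |x i| ≤ (N : ℤ) ^ 4) → ¬ Has3 x →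
      P.AcceptsIn T (zword N w x))
    (hsound : ∀ x : Fin N → ℤ, Function.Injective x → (∀ i, |x i| ≤ (N : ℤ) ^ 4) → Has3 x →
      ¬ P.Accepts (zword N w x)) :
    (N * (w + 1)) ^ 3 ≤ 26000 * (k * (S + 1) * (w + 1) * (k * T + N * (w + 1)) ^ 2) :=
  Pool.Agent.Y208.TS.threeSum_nondet N w P T S hk hS hacc
    (fun x h1 h2 h3 h4 => hsound x h1 h2 h4 h3)

end Pool.Agent.Results.MP_8f87b2_lc.NondeterministicSlowHeads
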