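import Mathlib
import Pool.Agent.Y638.RF.ZeroSum

/-!
# 3SUM: branching programs which test real formulas

The input consists of `2 n` distinct integers of absolute value at most `(2 n) ^ 3`; the question is
whether three of them have the sum zero. The items of the input are the first `n` numbers and the
list of the other `n` numbers.

A real formula (`Fml`) is built from real constants, arbitrary real functions of one item, and
arbitrary real functions of `w` words of length `c log₂ (2 n)`, where each word is an arbitrary
function of one item, by sums, products, sign tests `pos` (with the values `0`, `1`), and gates `sym`
of any fan-in whose value is an arbitrary real function of the number of positive inputs. So it may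
contain threshold gates of unbounded fan-in with arbitrary real weights, gates which test the sign of
arithmetic formulas, and arbitrary symmetric gates, nested in any way. It accepts if its value is
positive. Its size is the number of leaves (constants are free) plus the number of wires which lead to
gates `sym`. In a branching program (`Program`) every inner node tests whether a real formula accepts;
its size is the number of inner nodes plus the sizes of all these formulas. A formula is a program
with one inner node.

We show that random branching programs of size at most `s` with error probability at most `1 / 3` need
`n ^ 2 ≤ 14000 c w ^ 2 s`.

Proof. We count the functions of the `i`-th number which arise when the other numbers are fixed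
(Nechiporuk's method). Between the `r` leaves of a formula which see this number there are `O (r)`
places at which other parts of the formula enter, and the function of the value below such a place is
affine or an affine function of a threshold test; so there are `O (r)` real parameters, and the number
of sign patterns on a set of `n ^ O (1)` queries is `n ^ O (r)` by Warren's bound (in the form of
helper448); after a sign test the parameters are forgotten, so the bound does not depend on the
depth. The queries are those of helper697 and helper457
(`Pool.Agent.TH697.Form.ThreeSum`, `Pool.Agent.TH457.Ary.ZeroSum`).
-/

set_option autoImplicit false

namespace Pool.Agent.Results.MP_8f87b2_lc.RealPrograms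

open Pool.Agent.TH697.Form (IsProb)
open Pool.Agent.TH697.Row (ApproximatesOn)
open Pool.Agent.TH697.Form.ThreeSum (Item Valid)
open Pool.Agent.TH457.Ary.ZeroSum (zeroSum)
open Pool.Agent.Y638.RF (Program)

theorem result : ∀ n c w : ℕ, 1000 ≤ n → 1 ≤ c → 1 ≤ w →
    ∀ (Ω : Type) [Fintype Ω] (μ : Ω → ℝ), IsProb μ →
      ∀ (s : ℕ) (B : Ω → Program (Option (Fin n)) (Item n n) w ((2 * n) ^ c) s),
        ApproximatesOn μ (fun ω => (B ω).eval) (Valid n n) (zeroSum n) →
        (n : ℝ) ^ 2 ≤ 14000 * c * w ^ 2 * s :=
  fun _ _ _ hn hc hw _ _ μ hμ s B hB =>
    Pool.Agent.Y638.RF.ZeroSum.program_bound hn hc hw μ hμ s B hB

end Pool.Agent.Results.MP_8f87b2_lc.RealPrograms
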